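import Mathlib
import Pool.Agent.Helper872.LoadBal.NonIdle
import Pool.Agent.Helper872.LoadBal.Five
import Pool.Agent.Helper872.LoadBal.Greedy
import Pool.Agent.Helper872.LoadBal.Adversary2

universe u

open Pool.Agent.Helper872.LoadBal

namespace Pool.Agent.Results.MP_247733_lc.ExactValues

lemma small (n : ℕ) (hn : 2 ≤ n) (hn5 : n ≤ 5) (R : RandAlg.{u} n) (c : ℝ)
    (hR : R.Competitive c) : 2 - 1 / (n : ℝ) ≤ c := by
  have h2345 : n = 2 ∨ n = 3 ∨ n = 4 ∨ n = 5 := by omega
  rcases h2345 with rfl | rfl | rfl | rfl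
  · refine lower_boundX 2 (by norm_num) ?_ R c hR
    intro x hs hx
    left
    rw [Fin.sum_univ_two] at hs
    have h0 := hx 0
    have h1 := hx 1
    intro i
    fin_cases i <;> simp <;> omega
  · exact lower_boundX 3 (by norm_num) good3 R c hR
  · exact lower_boundX 4 (by norm_num) good4 R c hR
  · exact_mod_cast lower_bound5 R c hR

/-- Randomized online load balancing of temporary tasks on `n` identical machines against oblivious
adversaries.  (1) For `2 ≤ n ≤ 5` the least competitive ratio of randomized online algorithms is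
`2 - 1/n`.  (2) For every `n ≥ 2` the least competitive ratio of the randomized online algorithms
that never assign a task to a busy machine while some machine is idle is `2 - 1/n`.  (3) For every
`n ≥ 2` every randomized online algorithm has ratio at least `2 - 3/(2n+1)`; more precisely (4) at
least `2 - 2/(n+j)` for every `j ≥ 2` with `2j ≤ n` and `3j ≤ n+4`. -/
theorem result :
    (∀ n : ℕ, 2 ≤ n → n ≤ 5 →
      IsLeast {c : ℝ | ∃ R : RandAlg.{u} n, R.Competitive c} (2 - 1 / (n : ℝ))) ∧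
    (∀ n : ℕ, 2 ≤ n →
      IsLeast {c : ℝ | ∃ R : RandAlg.{u} n, (∀ ω, NonIdling (R.A ω)) ∧ R.Competitive c}
        (2 - 1 / (n : ℝ))) ∧
    (∀ n : ℕ, 2 ≤ n → ∀ (R : RandAlg.{u} n) (c : ℝ), R.Competitive c →
      2 - 3 / (2 * (n : ℝ) + 1) ≤ c) ∧
    (∀ n j : ℕ, 2 ≤ j → 2 * j ≤ n → 3 * j ≤ n + 4 → ∀ (R : RandAlg.{u} n) (c : ℝ),
      R.Competitive c → 2 - 2 / ((n : ℝ) + j) ≤ c) := by
  refine ⟨fun n hn hn5 => ?_, fun n hn => ?_, fun n hn R c hR => ?_,
    fun n j hj h2j hn R c hc => lower_boundB n j hj hn h2j R c hc⟩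
  · refine ⟨⟨greedyR (by omega), greedyR_competitive (by omega)⟩, ?_⟩
    rintro c ⟨R, hR⟩
    exact small n hn hn5 R c hR
  · refine ⟨⟨greedyR (by omega), fun _ => greedy_nonidling (by omega),
      greedyR_competitive (by omega)⟩, ?_⟩
    rintro c ⟨R, hR, hc⟩
    exact lower_boundNI n hn R hR c hc
  · have hn' : (2 : ℝ) ≤ n := by exact_mod_cast hn
    by_cases h5 : n ≤ 5
    · refine le_trans ?_ (small n hn h5 R c hR)
      have h4 : 1 / (n : ℝ) ≤ 3 / (2 * (n : ℝ) + 1) := by
        rw [div_le_div_iff₀ (by linarith) (by linarith)]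
        linarith
      linarith
    · have h := lower_boundB n ((n + 4) / 3) (by omega) (by omega) (by omega) R c hR
      refine le_trans ?_ h
      have h3 : (n : ℝ) + 2 ≤ 3 * (((n + 4) / 3 : ℕ) : ℝ) := by
        exact_mod_cast (by omega : n + 2 ≤ 3 * ((n + 4) / 3))
      have h4 : 2 / ((n : ℝ) + (((n + 4) / 3 : ℕ) : ℝ)) ≤ 3 / (2 * (n : ℝ) + 1) := by
        rw [div_le_div_iff₀ (by linarith) (by linarith)]
        nlinarith
      linarith

end Pool.Agent.Results.MP_247733_lc.ExactValues
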