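import Mathlib
import Pool.Agent.Helper872.LoadBal.NonIdle

universe u

open Pool.Agent.Helper872.LoadBal

namespace Pool.Agent.Results.MP_247733_lc.SmallNAndNonIdling

/-- Lower bounds for randomized online load balancing of temporary tasks on identical machines
against oblivious adversaries: `2 - 1/3` on three machines, `2 - 1/4` on four machines, `2 - 1/n`
on `n ≥ 2` machines for algorithms that never assign a task to a busy machine while some machine is
idle, and `2 - 2/(n+j)` on `n` machines for every `j ≥ 2` with `3j ≤ n+2`. -/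
theorem result :
    (∀ (R : RandAlg.{u} 3) (c : ℝ), R.Competitive c → 2 - 1 / 3 ≤ c) ∧
    (∀ (R : RandAlg.{u} 4) (c : ℝ), R.Competitive c → 2 - 1 / 4 ≤ c) ∧
    (∀ n : ℕ, 2 ≤ n → ∀ (R : RandAlg.{u} n) (c : ℝ), (∀ ω, NonIdling (R.A ω)) →
      R.Competitive c → 2 - 1 / (n : ℝ) ≤ c) ∧
    (∀ n j : ℕ, 2 ≤ j → 3 * j ≤ n + 2 → ∀ (R : RandAlg.{u} n) (c : ℝ), R.Competitive c →
      2 - 2 / ((n : ℝ) + j) ≤ c) := by
  refine ⟨fun R c hc => ?_, fun R c hc => ?_,
    fun n hn R c hR hc => lower_boundNI n hn R hR c hc,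
    fun n j hj hn R c hc => lower_bound n j hj hn R c hc⟩
  · have h := lower_boundX 3 (by norm_num) good3 R c hc
    norm_num at h ⊢
    exact h
  · have h := lower_boundX 4 (by norm_num) good4 R c hc
    norm_num at h ⊢
    exact h

end Pool.Agent.Results.MP_247733_lc.SmallNAndNonIdling
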